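import Pool.Agent.H94.LP7.M07

/-!
# XD, module N3: the thresholds

WLOG `ε ≤ 1`, `η ≤ 1`.  Let `κ = ε / 8`, `η_d = η / 2`, `η_j = κ η_{j+1}`, i.e. `η_j = κ^(d-j) η / 2`, and
`τ j` the least `i` with `A e i t l ≥ η_j n^l` for all `l ≤ j` (`Nat.find`; `0` for `j = 0` or `j ≥ d`).
It exists and is `≤ m - 1`: `A e (m-1) t l = A e m t l - A e m t (l-1) ≥ η n^l - n^(l-1) ≥ (η/2) n^l`.
For `i ≥ τ j`, `i ≤ m`, all degrees `l ≤ j` are exact at `(i, t)` by `IH l η_j` (`A_mono_m`).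
`F (τ j) t j ≤ 2 η_j n^j`: some `l ≤ j` has `A e (τ j - 1) t l < η_j n^l` (`l ≥ 1`, `τ j ≥ 1`), so
`A e (τ j) t l < η_j n^l + n^(l-1) ≤ 2 η_j n^l`, and `F (τ j) t j ≤ n^(j-l) F (τ j) t l` (`Sys.le_pow_mul`).
`F (τ (j+1)) t j = A .. ≥ η_{j+1} n^j`, `F (m-1) t j = A .. ≥ (η/2) n^j`.
-/

set_option autoImplicit false

namespace Pool.Agent.XD

open Finset

/-- The least `i` with `y n^l ≤ A e i t l` for all `l ≤ j`. -/
private theorem Thr_find {e : ℕ → ℕ} (he : ∀ t, 2 ≤ e t) {d n : ℕ} {F : ℕ → ℕ → ℕ → ℕ}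
    (hS : Sys d e F) {y : ℝ} (hy : 0 < y) (hy1 : y ≤ 1) (hn : 1 ≤ y * n) {m t j : ℕ} (hj : 1 ≤ j)
    (hjd : j < d) (hmn : m ≤ n) (hE : ∀ l ≤ j, Exact l y n)
    (hm : ∀ l ≤ j, y * (n : ℝ) ^ l ≤ (A e m t l : ℝ)) :
    ∃ i, i ≤ m ∧ (∀ l ≤ j, y * (n : ℝ) ^ l ≤ (A e i t l : ℝ)) ∧
      (∀ i', (∀ l ≤ j, y * (n : ℝ) ^ l ≤ (A e i' t l : ℝ)) → i ≤ i') ∧
      (F i t j : ℝ) ≤ 2 * y * (n : ℝ) ^ j := by
  classical
  have he1 : ∀ t, 1 ≤ e t := fun t => le_trans (by norm_num) (he t)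
  have hex : ∃ i, ∀ l ≤ j, y * (n : ℝ) ^ l ≤ (A e i t l : ℝ) := ⟨m, hm⟩
  set i := Nat.find hex with hi
  have h1 : ∀ l ≤ j, y * (n : ℝ) ^ l ≤ (A e i t l : ℝ) := Nat.find_spec hex
  have h2 : i ≤ m := Nat.find_min' hex hm
  have hn0 : (0 : ℝ) < n := by
    rcases Nat.eq_zero_or_pos n with h0 | h0
    · subst h0
      norm_num at hn
    · exact_mod_cast h0
  have hn1 : (1 : ℝ) ≤ n := by
    have : 0 < n := by exact_mod_cast hn0
    exact_mod_cast this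
  have hA0 : ∀ l ≤ j, 0 ≤ A e i t l := by
    intro l hl
    have h3 := h1 l hl
    have h4 : (0 : ℝ) ≤ y * (n : ℝ) ^ l := by positivity
    exact_mod_cast h4.trans h3
  have hin : i ≤ n := h2.trans hmn
  have hex' : ∀ l ≤ j, (F i t l : ℤ) = A e i t l := by
    intro l hl
    exact hE l hl n le_rfl e F he (hS.mono (by omega)) i t hin fun l' hl' => h1 l' (hl'.trans hl)
  refine ⟨i, h2, h1, fun i' hi' => Nat.find_min' hex hi', ?_⟩
  rcases Nat.eq_zero_or_pos i with h0 | h0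
  · obtain ⟨j', rfl⟩ : ∃ j', j = j' + 1 := ⟨j - 1, by omega⟩
    rw [h0, hS.no_vars t (by omega)]
    push_cast
    positivity
  · have h3 : ¬ ∀ l ≤ j, y * (n : ℝ) ^ l ≤ (A e (i - 1) t l : ℝ) := Nat.find_min hex (by omega)
    push Not at h3
    obtain ⟨l, hl, h4⟩ := h3
    have hl1 : 1 ≤ l := by
      by_contra hl0
      have hl0' : l = 0 := by omega
      subst hl0'
      rw [A_deg_zero he1] at h4
      norm_num at h4
      linarith
    obtain ⟨l', rfl⟩ : ∃ l', l = l' + 1 := ⟨l - 1, by omega⟩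
    obtain ⟨i', hi'⟩ : ∃ i', i = i' + 1 := ⟨i - 1, by omega⟩
    have h5 : A e i t (l' + 1) = A e (i - 1) t (l' + 1) + A e i t l' := by
      rw [hi']
      exact A_pascal he1 i' t l'
    have h6 : A e i t l' ≤ (i : ℤ) ^ l' := A_le_pow he1 (D := j) (fun k hk => hA0 k hk.le) (by omega)
    have h6' : (A e i t l' : ℝ) ≤ (n : ℝ) ^ l' := by
      have h7 : (A e i t l' : ℝ) ≤ (i : ℝ) ^ l' := by exact_mod_cast h6
      refine h7.trans ?_
      exact pow_le_pow_left₀ (Nat.cast_nonneg _) (by exact_mod_cast hin) _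
    have h7 : (n : ℝ) ^ l' ≤ y * (n : ℝ) ^ (l' + 1) := by
      have h8 : (0 : ℝ) < (n : ℝ) ^ l' := by positivity
      calc (n : ℝ) ^ l' = 1 * (n : ℝ) ^ l' := (one_mul _).symm
        _ ≤ (y * n) * (n : ℝ) ^ l' := by
          exact mul_le_mul_of_nonneg_right hn h8.le
        _ = y * (n : ℝ) ^ (l' + 1) := by ring
    have h8 : (A e i t (l' + 1) : ℝ) ≤ 2 * y * (n : ℝ) ^ (l' + 1) := by
      rw [h5]
      push_cast
      linarith
    have h9 : (F i t (l' + 1) : ℝ) = (A e i t (l' + 1) : ℝ) := by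
      exact_mod_cast hex' (l' + 1) hl
    have h10 : F i t j ≤ i ^ (j - (l' + 1)) * F i t (l' + 1) := hS.le_pow_mul i t hl (by omega)
    have h11 : (F i t j : ℝ) ≤ (i : ℝ) ^ (j - (l' + 1)) * (F i t (l' + 1) : ℝ) := by
      exact_mod_cast h10
    refine h11.trans ?_
    rw [h9]
    have h12 : (i : ℝ) ^ (j - (l' + 1)) ≤ (n : ℝ) ^ (j - (l' + 1)) :=
      pow_le_pow_left₀ (Nat.cast_nonneg _) (by exact_mod_cast hin) _
    have h13 : (0 : ℝ) ≤ (A e i t (l' + 1) : ℝ) := by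
      exact_mod_cast hA0 (l' + 1) hl
    calc (i : ℝ) ^ (j - (l' + 1)) * (A e i t (l' + 1) : ℝ) ≤
        (n : ℝ) ^ (j - (l' + 1)) * (2 * y * (n : ℝ) ^ (l' + 1)) :=
          mul_le_mul h12 h8 h13 (by positivity)
      _ = 2 * y * (n : ℝ) ^ j := by
        have e1 : (n : ℝ) ^ j = (n : ℝ) ^ (j - (l' + 1)) * (n : ℝ) ^ (l' + 1) := by
          rw [← pow_add, Nat.sub_add_cancel hl]
        rw [e1]
        ring

private theorem Exact_mono {l : ℕ} {y : ℝ} {a b : ℕ} (h : Exact l y a) (hab : a ≤ b) :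
    Exact l y b := fun n hn => h n (hab.trans hn)

theorem thr (d : ℕ) (hd : 2 ≤ d) (IH : ∀ l < d, ∀ η : ℝ, 0 < η → ∃ n₀ : ℕ, Exact l η n₀)
    (η ε : ℝ) (hη : 0 < η) (hε : 0 < ε) : ∃ n₁ : ℕ, ∀ n, n₁ ≤ n →
    ∀ (e : ℕ → ℕ) (F : ℕ → ℕ → ℕ → ℕ), (∀ t, 2 ≤ e t) → Sys d e F → ∀ m t, m ≤ n →
      (∀ j < d, η * (n : ℝ) ^ j ≤ (A e m t j : ℝ)) →
      1 ≤ m ∧ (∀ j < d, (F m t j : ℤ) = A e m t j) ∧
        (∀ j < d, (F (m - 1) t j : ℤ) = A e (m - 1) t j) ∧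
        ∃ τ : ℕ → ℕ, Thr m d (fun i j => F i t j) τ ε := by
  classical
  obtain ⟨η', hη', hη'0, hη'1⟩ : ∃ η' : ℝ, η' ≤ η ∧ 0 < η' ∧ η' ≤ 1 :=
    ⟨min η 1, min_le_left _ _, lt_min hη one_pos, min_le_right _ _⟩
  obtain ⟨ε', hε', hε'0, hε'1⟩ : ∃ ε' : ℝ, ε' ≤ ε ∧ 0 < ε' ∧ ε' ≤ 1 :=
    ⟨min ε 1, min_le_left _ _, lt_min hε one_pos, min_le_right _ _⟩
  set κ : ℝ := ε' / 8 with hκ
  have hκ0 : 0 < κ := by positivity
  have hκ1 : κ ≤ 1 := by rw [hκ]; linarith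
  let y : ℕ → ℝ := fun j => κ ^ (d - j) * (η' / 2)
  have hy0 : ∀ j, 0 < y j := fun j => by positivity
  have hyd : ∀ j, y j ≤ η' / 2 := by
    intro j
    have h1 : κ ^ (d - j) ≤ 1 := pow_le_one₀ hκ0.le hκ1
    have h2 : κ ^ (d - j) * (η' / 2) ≤ 1 * (η' / 2) :=
      mul_le_mul_of_nonneg_right h1 (by positivity)
    simpa [y] using h2
  have hyκ : ∀ j < d, y j ≤ κ * (η' / 2) := by
    intro j hj
    obtain ⟨s, hs⟩ : ∃ s, d - j = s + 1 := ⟨d - j - 1, by omega⟩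
    have h1 : κ ^ s ≤ 1 := pow_le_one₀ hκ0.le hκ1
    show κ ^ (d - j) * (η' / 2) ≤ _
    rw [hs, pow_succ]
    have h2 : κ ^ s * κ ≤ 1 * κ := mul_le_mul_of_nonneg_right h1 hκ0.le
    have h3 := mul_le_mul_of_nonneg_right h2 (by positivity : (0 : ℝ) ≤ η' / 2)
    linarith
  have hyS : ∀ j, j < d → y j = κ * y (j + 1) := by
    intro j hj
    obtain ⟨s, hs⟩ : ∃ s, d - j = s + 1 := ⟨d - j - 1, by omega⟩
    have hs' : d - (j + 1) = s := by omega
    show κ ^ (d - j) * (η' / 2) = κ * (κ ^ (d - (j + 1)) * (η' / 2))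
    rw [hs, hs', pow_succ]
    ring
  choose N hN using IH
  obtain ⟨n₁, hn₁⟩ : ∃ n₁ : ℕ, (∀ l (hl : l < d), ∀ j ≤ d, N l hl (y j) (hy0 j) ≤ n₁) ∧
      (∀ j ≤ d, 1 ≤ y j * n₁) ∧ 2 ≤ η' * n₁ ∧ 2 ≤ ε' * η' * n₁ ∧ 1 ≤ n₁ := by
    let a : ℕ := ∑ l ∈ range d, ∑ j ∈ range (d + 1), if hl : l < d then N l hl (y j) (hy0 j) else 0
    obtain ⟨b, hb⟩ := exists_nat_ge (∑ j ∈ range (d + 1), 1 / y j)
    obtain ⟨c, hc⟩ := exists_nat_ge (2 / η')
    obtain ⟨g, hg⟩ := exists_nat_ge (2 / (ε' * η'))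
    refine ⟨a + b + c + g + 1, ?_, ?_, ?_, ?_, by omega⟩
    · intro l hl j hj
      have h1 : N l hl (y j) (hy0 j) ≤ a := by
        have h2 : (∑ j ∈ range (d + 1), if hl : l < d then N l hl (y j) (hy0 j) else 0) ≤ a :=
          single_le_sum (f := fun l => ∑ j ∈ range (d + 1),
            if hl : l < d then N l hl (y j) (hy0 j) else 0) (fun _ _ => Nat.zero_le _)
            (mem_range.2 hl)
        have h3 : (if hl : l < d then N l hl (y j) (hy0 j) else 0) ≤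
            ∑ j ∈ range (d + 1), if hl : l < d then N l hl (y j) (hy0 j) else 0 :=
          single_le_sum (f := fun j => if hl : l < d then N l hl (y j) (hy0 j) else 0)
            (fun _ _ => Nat.zero_le _) (mem_range.2 (by omega))
        rw [dif_pos hl] at h3
        exact h3.trans h2
      omega
    · intro j hj
      have h1 : 1 / y j ≤ b := by
        refine le_trans ?_ hb
        exact single_le_sum (f := fun j => 1 / y j) (fun j _ => by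
          have := hy0 j
          positivity) (mem_range.2 (by omega))
      rw [div_le_iff₀ (hy0 j)] at h1
      push_cast
      have h2 := hy0 j
      have h3 : (b : ℝ) * y j ≤ y j * ((a : ℝ) + b + c + g + 1) := by
        rw [mul_comm]
        refine mul_le_mul_of_nonneg_left ?_ h2.le
        have ha : (0 : ℝ) ≤ a := Nat.cast_nonneg _
        have hc' : (0 : ℝ) ≤ c := Nat.cast_nonneg _
        have hg' : (0 : ℝ) ≤ g := Nat.cast_nonneg _
        linarith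
      linarith
    · rw [div_le_iff₀ hη'0] at hc
      push_cast
      have h3 : (c : ℝ) * η' ≤ η' * ((a : ℝ) + b + c + g + 1) := by
        rw [mul_comm]
        refine mul_le_mul_of_nonneg_left ?_ hη'0.le
        have ha : (0 : ℝ) ≤ a := Nat.cast_nonneg _
        have hb' : (0 : ℝ) ≤ b := Nat.cast_nonneg _
        have hg' : (0 : ℝ) ≤ g := Nat.cast_nonneg _
        linarith
      linarith
    · have hp : 0 < ε' * η' := by positivity
      rw [div_le_iff₀ hp] at hg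
      push_cast
      have h3 : (g : ℝ) * (ε' * η') ≤ ε' * η' * ((a : ℝ) + b + c + g + 1) := by
        rw [mul_comm]
        refine mul_le_mul_of_nonneg_left ?_ hp.le
        have ha : (0 : ℝ) ≤ a := Nat.cast_nonneg _
        have hb' : (0 : ℝ) ≤ b := Nat.cast_nonneg _
        have hc' : (0 : ℝ) ≤ c := Nat.cast_nonneg _
        linarith
      linarith
  obtain ⟨hnN, hny, hnη, hnε, hn11⟩ := hn₁
  refine ⟨n₁, fun n hn e F he hS m t hmn hA => ?_⟩
  have hnR : (n₁ : ℝ) ≤ n := by exact_mod_cast hn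
  have hn1 : (1 : ℝ) ≤ n := by
    have : 1 ≤ n := hn11.trans hn
    exact_mod_cast this
  have he1 : ∀ t, 1 ≤ e t := fun t => le_trans (by norm_num) (he t)
  have hyn : ∀ j ≤ d, 1 ≤ y j * n := fun j hj =>
    (hny j hj).trans (mul_le_mul_of_nonneg_left hnR (hy0 j).le)
  have hηn : 2 ≤ η' * n := hnη.trans (mul_le_mul_of_nonneg_left hnR hη'0.le)
  have hεn : 2 ≤ ε' * η' * n := hnε.trans (mul_le_mul_of_nonneg_left hnR (by positivity))
  have hEx : ∀ l < d, ∀ j ≤ d, Exact l (y j) n := fun l hl j hj =>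
    Exact_mono (hN l hl (y j) (hy0 j)) ((hnN l hl j hj).trans hn)
  have hA' : ∀ j < d, η' * (n : ℝ) ^ j ≤ (A e m t j : ℝ) := fun j hj =>
    (mul_le_mul_of_nonneg_right hη' (by positivity)).trans (hA j hj)
  have hA0 : ∀ j < d, 0 ≤ A e m t j := by
    intro j hj
    have h1 : (0 : ℝ) ≤ η' * (n : ℝ) ^ j := by positivity
    exact_mod_cast h1.trans (hA' j hj)
  have hm1 : 1 ≤ m := by
    by_contra h0
    have h0' : m = 0 := by omega
    have h1 : A e m t 1 ≤ (m : ℤ) ^ 1 := A_le_pow he1 (D := 1) (fun j hj => hA0 j (by omega)) le_rfl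
    have h2 := hA' 1 (by omega)
    rw [h0'] at h1 h2
    have h3 : (A e 0 t 1 : ℝ) ≤ 0 := by
      have : A e 0 t 1 ≤ 0 := by simpa using h1
      exact_mod_cast this
    rw [pow_one] at h2
    linarith
  obtain ⟨m', rfl⟩ : ∃ m', m = m' + 1 := ⟨m - 1, by omega⟩
  rw [Nat.add_sub_cancel]
  have hAm : ∀ j < d, η' / 2 * (n : ℝ) ^ j ≤ (A e m' t j : ℝ) := by
    intro j hj
    rcases j with _ | j
    · rw [A_deg_zero he1]
      norm_num
      linarith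
    · have h1 := A_pascal he1 m' t j
      have h2 : A e (m' + 1) t j ≤ ((m' + 1 : ℕ) : ℤ) ^ j :=
        A_le_pow he1 (D := j) (fun k hk => hA0 k (by omega)) le_rfl
      have h3 : (A e (m' + 1) t j : ℝ) ≤ ((m' + 1 : ℕ) : ℝ) ^ j := by exact_mod_cast h2
      have h4 : ((m' + 1 : ℕ) : ℝ) ^ j ≤ (n : ℝ) ^ j :=
        pow_le_pow_left₀ (Nat.cast_nonneg _) (by exact_mod_cast hmn) _
      have h5 := hA' (j + 1) hj
      have h6 : (A e (m' + 1) t (j + 1) : ℝ) = (A e m' t (j + 1) : ℝ) + (A e (m' + 1) t j : ℝ) := by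
        exact_mod_cast h1
      have h7 : (n : ℝ) ^ j ≤ η' / 2 * (n : ℝ) ^ (j + 1) := by
        have h8 : (0 : ℝ) < (n : ℝ) ^ j := by positivity
        calc (n : ℝ) ^ j = 1 * (n : ℝ) ^ j := (one_mul _).symm
          _ ≤ (η' / 2 * n) * (n : ℝ) ^ j := mul_le_mul_of_nonneg_right (by linarith) h8.le
          _ = η' / 2 * (n : ℝ) ^ (j + 1) := by ring
      linarith
  have hAmj : ∀ j, ∀ l < d, y j * (n : ℝ) ^ l ≤ (A e m' t l : ℝ) := by
    intro j l hl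
    refine le_trans ?_ (hAm l hl)
    exact mul_le_mul_of_nonneg_right (hyd j) (by positivity)
  have hAMj : ∀ j, ∀ l < d, y j * (n : ℝ) ^ l ≤ (A e (m' + 1) t l : ℝ) := by
    intro j l hl
    refine le_trans ?_ (hA' l hl)
    refine mul_le_mul_of_nonneg_right ((hyd j).trans (by linarith)) (by positivity)
  have hFm : ∀ j < d, (F m' t j : ℤ) = A e m' t j := fun j hj =>
    hEx j hj d le_rfl n le_rfl e F he (hS.mono hj.le) m' t (by omega) fun l hl =>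
      hAmj d l (by omega)
  have hFM : ∀ j < d, (F (m' + 1) t j : ℤ) = A e (m' + 1) t j := fun j hj =>
    hEx j hj d le_rfl n le_rfl e F he (hS.mono hj.le) (m' + 1) t hmn fun l hl =>
      hAMj d l (by omega)
  refine ⟨by omega, hFM, hFm, ?_⟩
  have hτ : ∀ j, 1 ≤ j ∧ j < d → ∃ i, i ≤ m' ∧
      (∀ l ≤ j, y j * (n : ℝ) ^ l ≤ (A e i t l : ℝ)) ∧
      (∀ i', (∀ l ≤ j, y j * (n : ℝ) ^ l ≤ (A e i' t l : ℝ)) → i ≤ i') ∧
      (F i t j : ℝ) ≤ 2 * y j * (n : ℝ) ^ j := by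
    rintro j ⟨hj1, hjd⟩
    exact Thr_find he hS (hy0 j) ((hyd j).trans (by linarith)) (hyn j hjd.le) hj1 hjd (by omega)
      (fun l hl => hEx l (by omega) j hjd.le) fun l hl => hAmj j l (by omega)
  have hτ' : ∀ j, ∃ i, 1 ≤ j ∧ j < d → i ≤ m' ∧
      (∀ l ≤ j, y j * (n : ℝ) ^ l ≤ (A e i t l : ℝ)) ∧
      (∀ i', (∀ l ≤ j, y j * (n : ℝ) ^ l ≤ (A e i' t l : ℝ)) → i ≤ i') ∧
      (F i t j : ℝ) ≤ 2 * y j * (n : ℝ) ^ j := by
    intro j
    by_cases h : 1 ≤ j ∧ j < d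
    · obtain ⟨i, hi⟩ := hτ j h
      exact ⟨i, fun _ => hi⟩
    · exact ⟨0, fun h' => absurd h' h⟩
  choose τ hτ using hτ'
  have hex : ∀ j, 1 ≤ j → j < d → ∀ i, τ j ≤ i → i ≤ m' + 1 → ∀ l ≤ j,
      y j * (n : ℝ) ^ l ≤ (A e i t l : ℝ) ∧ (F i t l : ℤ) = A e i t l := by
    intro j hj1 hjd i hi him
    obtain ⟨h1, h2, h3, h4⟩ := hτ j ⟨hj1, hjd⟩
    have h5 : ∀ l ≤ j, y j * (n : ℝ) ^ l ≤ (A e i t l : ℝ) := by
      intro l hl
      refine (h2 l hl).trans ?_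
      have h6 : A e (τ j) t l ≤ A e i t l := by
        refine A_mono_m he1 (D := j) (fun k hk => ?_) hi hl
        have h7 : (0 : ℝ) ≤ y j * (n : ℝ) ^ k := by
          have := hy0 j
          positivity
        exact_mod_cast h7.trans (h2 k hk.le)
      exact_mod_cast h6
    intro l hl
    refine ⟨h5 l hl, ?_⟩
    exact hEx l (by omega) j hjd.le n le_rfl e F he (hS.mono (by omega)) i t (by omega)
      fun l' hl' => h5 l' (hl'.trans hl)
  refine ⟨τ, ⟨?_, ?_, ?_, ?_, ?_, ?_, ?_⟩⟩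
  · intro j hj1 hjd
    have := (hτ j ⟨hj1, hjd⟩).1
    omega
  · intro j hj1 hjd
    obtain ⟨h1, h2, h3, h4⟩ := hτ j ⟨hj1, by omega⟩
    obtain ⟨g1, g2, g3, g4⟩ := hτ (j + 1) ⟨by omega, hjd⟩
    refine h3 _ fun l hl => ?_
    refine le_trans ?_ (g2 l (by omega))
    refine mul_le_mul_of_nonneg_right ?_ (by positivity)
    rw [hyS j (by omega)]
    have h5 : κ * y (j + 1) ≤ 1 * y (j + 1) := mul_le_mul_of_nonneg_right hκ1 (hy0 _).le
    linarith
  · intro j hjd i hi him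
    show F (i + 1) t (j + 1) = F i t (j + 1) + F (i + 1) t j
    have h1 := (hex (j + 1) (by omega) hjd i hi (by omega) (j + 1) le_rfl).2
    have h2 := (hex (j + 1) (by omega) hjd (i + 1) (by omega) (by omega) (j + 1) le_rfl).2
    have h3 := (hex (j + 1) (by omega) hjd (i + 1) (by omega) (by omega) j (by omega)).2
    have h4 := A_pascal he1 i t j
    rw [← h1, ← h2, ← h3] at h4
    exact_mod_cast h4
  · intro j hj1 hjd
    show (F (τ j) t j : ℝ) ≤ ε * (F (τ (j + 1)) t j : ℝ)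
    obtain ⟨h1, h2, h3, h4⟩ := hτ j ⟨hj1, by omega⟩
    have g := hex (j + 1) (by omega) hjd (τ (j + 1)) le_rfl
      ((hτ (j + 1) ⟨by omega, hjd⟩).1.trans (by omega)) j (by omega)
    have g1 : (F (τ (j + 1)) t j : ℝ) = (A e (τ (j + 1)) t j : ℝ) := by exact_mod_cast g.2
    have g2 : y (j + 1) * (n : ℝ) ^ j ≤ (F (τ (j + 1)) t j : ℝ) := by
      rw [g1]
      exact g.1
    refine h4.trans ?_
    have h5 : 2 * y j * (n : ℝ) ^ j ≤ ε' * (y (j + 1) * (n : ℝ) ^ j) := by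
      rw [hyS j (by omega)]
      have h6 : 0 ≤ y (j + 1) * (n : ℝ) ^ j := by
        have := hy0 (j + 1)
        positivity
      have h7 : 2 * κ ≤ ε' := by rw [hκ]; linarith
      calc 2 * (κ * y (j + 1)) * (n : ℝ) ^ j = 2 * κ * (y (j + 1) * (n : ℝ) ^ j) := by ring
        _ ≤ ε' * (y (j + 1) * (n : ℝ) ^ j) := mul_le_mul_of_nonneg_right h7 h6
    refine h5.trans ((mul_le_mul_of_nonneg_left g2 hε'0.le).trans ?_)
    exact mul_le_mul_of_nonneg_right hε' (Nat.cast_nonneg _)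
  · intro j hj1 hjd
    show (F (τ j) t j : ℝ) ≤ ε * (F m' t j : ℝ)
    obtain ⟨h1, h2, h3, h4⟩ := hτ j ⟨hj1, hjd⟩
    have g1 : (F m' t j : ℝ) = (A e m' t j : ℝ) := by exact_mod_cast hFm j hjd
    have g2 : η' / 2 * (n : ℝ) ^ j ≤ (F m' t j : ℝ) := by
      rw [g1]
      exact hAm j hjd
    refine h4.trans ?_
    have h5 : 2 * y j * (n : ℝ) ^ j ≤ ε' * (η' / 2 * (n : ℝ) ^ j) := by
      have h6 : 0 ≤ η' / 2 * (n : ℝ) ^ j := by positivity
      have h7 : 2 * κ ≤ ε' := by rw [hκ]; linarith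
      have h8 : y j * (n : ℝ) ^ j ≤ κ * (η' / 2) * (n : ℝ) ^ j :=
        mul_le_mul_of_nonneg_right (hyκ j hjd) (by positivity)
      calc 2 * y j * (n : ℝ) ^ j = 2 * (y j * (n : ℝ) ^ j) := by ring
        _ ≤ 2 * (κ * (η' / 2) * (n : ℝ) ^ j) := by linarith
        _ = 2 * κ * (η' / 2 * (n : ℝ) ^ j) := by ring
        _ ≤ ε' * (η' / 2 * (n : ℝ) ^ j) := mul_le_mul_of_nonneg_right h7 h6
    refine h5.trans ((mul_le_mul_of_nonneg_left g2 hε'0.le).trans ?_)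
    exact mul_le_mul_of_nonneg_right hε' (Nat.cast_nonneg _)
  · intro j hjd
    show (F m' t j : ℝ) ≤ ε * (F m' t (j + 1) : ℝ)
    have g1 : (F m' t (j + 1) : ℝ) = (A e m' t (j + 1) : ℝ) := by exact_mod_cast hFm (j + 1) hjd
    have g2 : η' / 2 * (n : ℝ) ^ (j + 1) ≤ (F m' t (j + 1) : ℝ) := by
      rw [g1]
      exact hAm (j + 1) hjd
    have h1 : F m' t j ≤ m' ^ j := hS.le_pow he1 m' t (by omega)
    have h2 : (F m' t j : ℝ) ≤ (m' : ℝ) ^ j := by exact_mod_cast h1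
    have h3 : (m' : ℝ) ^ j ≤ (n : ℝ) ^ j :=
      pow_le_pow_left₀ (Nat.cast_nonneg _) (by exact_mod_cast (by omega : m' ≤ n)) _
    have h4 : (n : ℝ) ^ j ≤ ε' * (η' / 2 * (n : ℝ) ^ (j + 1)) := by
      have h8 : (0 : ℝ) < (n : ℝ) ^ j := by positivity
      calc (n : ℝ) ^ j = 1 * (n : ℝ) ^ j := (one_mul _).symm
        _ ≤ (ε' * η' * n / 2) * (n : ℝ) ^ j := mul_le_mul_of_nonneg_right (by linarith) h8.le
        _ = ε' * (η' / 2 * (n : ℝ) ^ (j + 1)) := by ring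
    refine (h2.trans (h3.trans h4)).trans ?_
    refine (mul_le_mul_of_nonneg_left g2 hε'0.le).trans ?_
    exact mul_le_mul_of_nonneg_right hε' (Nat.cast_nonneg _)
  · intro j hjd
    show 0 < F m' t j
    have h1 := hAm j hjd
    have h2 : (0 : ℝ) < η' / 2 * (n : ℝ) ^ j := by positivity
    have h3 : (0 : ℝ) < (A e m' t j : ℝ) := h2.trans_le h1
    have h4 : 0 < A e m' t j := by exact_mod_cast h3
    rw [← hFm j hjd] at h4
    exact_mod_cast h4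

end Pool.Agent.XD
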