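import Pool.Agent.H94.LP7.M07
import Pool.Agent.H94.LP7.M39

/-!
# XD, module N5: transport

The real numbers `δ m t` (`m` variables, `t` powers) vanish off the layer: the abstract argument
`Pool.Agent.XD.trans` with `C = 1 + 1 / η`, `ad m t = A e m t d`, `be m t = A e m t (d - 1)`,
`al m t = A e m t (d - e t)` and `w t = n ^ (d - e t)` (both `0` if `e t > d`).
-/

set_option autoImplicit false

namespace Pool.Agent.XD

open Finset

private theorem Transport_sum {e : ℕ → ℕ} (m d : ℕ) (T : ℕ) :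
    A e m T d = (Nat.multichoose m d : ℤ) -
      ∑ i ∈ range T, if e i ≤ d then A e m i (d - e i) else 0 := by
  induction T with
  | zero => simp [A_zero]
  | succ T ih =>
    rw [A_succ, ih, sum_range_succ]
    ring

theorem transport (d : ℕ) (hd : 2 ≤ d) (η : ℝ) (hη : 0 < η) (hη1 : η ≤ 1) :
    ∃ ε : ℝ, 0 < ε ∧ ∃ n₂ : ℕ, ∀ n, n₂ ≤ n → ∀ e : ℕ → ℕ, (∀ t, 2 ≤ e t) →
      ∀ (δ : ℕ → ℕ → ℝ) (m₁ T : ℕ), m₁ ≤ n →
      (∀ j ≤ d, η * (n : ℝ) ^ j ≤ (A e m₁ T j : ℝ)) →
      (∀ m ≤ m₁, δ m 0 ≤ 0) →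
      (∀ m ≤ m₁, ∀ t ≤ T, (∀ j < d, η / 4 * (n : ℝ) ^ j ≤ (A e m t j : ℝ)) →
        δ m t ≤ (n : ℝ) ^ d - (A e m t d : ℝ)) →
      (∀ m ≤ m₁, ∀ t < T, d < e t → δ m (t + 1) = δ m t) →
      (∀ m ≤ m₁, ∀ t < T, (∀ j < d, η / 4 * (n : ℝ) ^ j ≤ (A e m t j : ℝ)) →
        η / 2 * (n : ℝ) ^ d ≤ (A e m t d : ℝ) → ∀ j ≤ d, η / 2 * (n : ℝ) ^ j ≤ (A e m t j : ℝ)) →
      (∀ m ≤ m₁, ∀ t < T, (∀ j ≤ d, η / 2 * (n : ℝ) ^ j ≤ (A e m t j : ℝ)) → e t ≤ d →
        δ m t ≤ δ m (t + 1) ∧
        (δ m (t + 1) - δ m t) * ((1 - ε) * (A e m t (d - 1) : ℝ)) ≤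
          (δ (m - 1) t - δ m t) * (A e m t (d - e t) : ℝ)) →
      δ m₁ T < 1 := by
  obtain ⟨ε, hε, _, n₀, hn₀⟩ := trans d (1 + 1 / η) η (by
    have : 0 < 1 / η := by positivity
    linarith) hη
  obtain ⟨n₁, hn₁⟩ := exists_nat_gt (4 / η)
  refine ⟨ε, hε, n₀ + n₁ + 1, fun n hn e he δ m₁ T hm₁ hA h0 hcr hbig heu hst => ?_⟩
  have he1 : ∀ t, 1 ≤ e t := fun t => by
    have := he t
    omega
  have hn0 : (0 : ℝ) < n := by
    have : 0 < n := by omega
    exact_mod_cast this
  have hnη : 4 ≤ η * n := by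
    have h1 : (4 / η : ℝ) < n := by
      refine hn₁.trans ?_
      have : n₁ < n := by omega
      exact_mod_cast this
    rw [div_lt_iff₀ hη] at h1
    linarith
  -- nonnegative numbers
  have hpos : ∀ m t, (∀ j < d, η / 4 * (n : ℝ) ^ j ≤ (A e m t j : ℝ)) → ∀ j < d, 0 ≤ A e m t j := by
    intro m t h j hj
    have h1 := h j hj
    have h2 : (0 : ℝ) ≤ η / 4 * (n : ℝ) ^ j := by positivity
    exact_mod_cast h2.trans h1
  have hanti : ∀ m t t', (∀ j < d, η / 4 * (n : ℝ) ^ j ≤ (A e m t j : ℝ)) → t' ≤ t → ∀ j ≤ d,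
      A e m t j ≤ A e m t' j := fun m t t' h ht j hj => A_anti_t he1 (hpos m t h) ht hj
  have hup : ∀ m t t', (∀ j < d, η / 4 * (n : ℝ) ^ j ≤ (A e m t j : ℝ)) → t' ≤ t →
      ∀ j < d, η / 4 * (n : ℝ) ^ j ≤ (A e m t' j : ℝ) := by
    intro m t t' h ht j hj
    have h1 := hanti m t t' h ht j hj.le
    exact (h j hj).trans (by exact_mod_cast h1)
  have hle : ∀ m ≤ n, ∀ t, (∀ j < d, η / 4 * (n : ℝ) ^ j ≤ (A e m t j : ℝ)) → ∀ j ≤ d,
      (A e m t j : ℝ) ≤ (n : ℝ) ^ j := by
    intro m hm t h j hj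
    have h1 := A_le_pow he1 (hpos m t h) hj
    have h2 : (A e m t j : ℝ) ≤ (m : ℝ) ^ j := by exact_mod_cast h1
    refine h2.trans (pow_le_pow_left₀ (by positivity) ?_ j)
    exact_mod_cast hm
  have hreg : ∀ j < d, η / 4 * (n : ℝ) ^ j ≤ (A e m₁ T j : ℝ) := by
    intro j hj
    refine le_trans ?_ (hA j hj.le)
    refine mul_le_mul_of_nonneg_right (by linarith) (by positivity)
  -- the weights
  obtain ⟨w, hw⟩ : ∃ w : ℕ → ℝ, w = fun i => if e i ≤ d then (n : ℝ) ^ (d - e i) else 0 := ⟨_, rfl⟩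
  have hw0 : ∀ i, 0 ≤ w i := by
    intro i
    rw [hw]
    beta_reduce
    split_ifs
    · positivity
    · exact le_rfl
  have hsumT : ∑ i ∈ range T, w i ≤ 1 / η * (n : ℝ) ^ d := by
    have h1 : η * ∑ i ∈ range T, w i ≤
        ∑ i ∈ range T, ((if e i ≤ d then A e m₁ i (d - e i) else 0 : ℤ) : ℝ) := by
      rw [mul_sum]
      refine sum_le_sum fun i hi => ?_
      rw [hw]
      beta_reduce
      split_ifs with h
      · have h2 := hA (d - e i) (by omega)
        have h3 := hanti m₁ T i hreg (mem_range.1 hi).le (d - e i) (by omega)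
        have h4 : (A e m₁ T (d - e i) : ℝ) ≤ (A e m₁ i (d - e i) : ℝ) := by exact_mod_cast h3
        linarith
      · simp
    have h2 : (∑ i ∈ range T, ((if e i ≤ d then A e m₁ i (d - e i) else 0 : ℤ) : ℝ)) ≤
        (n : ℝ) ^ d := by
      have h3 := Transport_sum (e := e) m₁ d T
      have h4 : (∑ i ∈ range T, ((if e i ≤ d then A e m₁ i (d - e i) else 0 : ℤ) : ℝ)) =
          (Nat.multichoose m₁ d : ℝ) - (A e m₁ T d : ℝ) := by
        rw [h3]
        push_cast
        ring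
      rw [h4]
      have h5 := hA d le_rfl
      have h6 : (0 : ℝ) ≤ η * (n : ℝ) ^ d := by positivity
      have h7 : (Nat.multichoose m₁ d : ℝ) ≤ (n : ℝ) ^ d := by
        have h8 := (multichoose_le_pow m₁ d).trans (Nat.pow_le_pow_left hm₁ d)
        exact_mod_cast h8
      linarith
    calc ∑ i ∈ range T, w i = 1 / η * (η * ∑ i ∈ range T, w i) := by field_simp
      _ ≤ 1 / η * (n : ℝ) ^ d :=
        mul_le_mul_of_nonneg_left (h1.trans h2) (by positivity)
  have hAneg : ∀ m ≤ n, ∀ t ≤ T, (∀ j < d, η / 4 * (n : ℝ) ^ j ≤ (A e m t j : ℝ)) →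
      -(A e m t d : ℝ) ≤ 1 / η * (n : ℝ) ^ d := by
    intro m hm t ht h
    refine le_trans ?_ hsumT
    have h1 : (∑ i ∈ range t, ((if e i ≤ d then A e m i (d - e i) else 0 : ℤ) : ℝ)) ≤
        ∑ i ∈ range T, w i := by
      refine le_trans (sum_le_sum (g := w) fun i hi => ?_)
        (sum_le_sum_of_subset_of_nonneg (range_subset_range.2 ht) fun i _ _ => hw0 i)
      rw [hw]
      beta_reduce
      split_ifs with h2
      · exact hle m hm i (hup m t i h (mem_range.1 hi).le) (d - e i) (by omega)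
      · simp
    have h2 := Transport_sum (e := e) m d t
    have h3 : (∑ i ∈ range t, ((if e i ≤ d then A e m i (d - e i) else 0 : ℤ) : ℝ)) =
        (Nat.multichoose m d : ℝ) - (A e m t d : ℝ) := by
      rw [h2]
      push_cast
      ring
    rw [h3] at h1
    have h4 : (0 : ℝ) ≤ (Nat.multichoose m d : ℝ) := by positivity
    linarith
  have key := hn₀ n (by omega) T w (fun m i => (A e m i d : ℝ))
    (fun m i => ((if e i ≤ d then A e m i (d - e i) else 0 : ℤ) : ℝ))
    (fun m i => (A e m i (d - 1) : ℝ)) δ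
    (fun m i => m ≤ m₁ ∧ i ≤ T ∧ ∀ j < d, η / 4 * (n : ℝ) ^ j ≤ (A e m i j : ℝ))
    (fun i _ => hw0 i) (by
      refine hsumT.trans (mul_le_mul_of_nonneg_right ?_ (by positivity))
      linarith)
    (fun m h => h0 m h.1)
    (fun m i h => by
      have h1 := hcr m h.1 i h.2.1 h.2.2
      have h2 := hAneg m (h.1.trans hm₁) i h.2.1 h.2.2
      calc δ m i ≤ (n : ℝ) ^ d - (A e m i d : ℝ) := h1
        _ ≤ (n : ℝ) ^ d + 1 / η * (n : ℝ) ^ d := by linarith
        _ = (1 + 1 / η) * (n : ℝ) ^ d := by ring)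
    (by
      rintro m i hi ⟨hm, -, h⟩ hd2
      have hmn : m ≤ n := hm.trans hm₁
      have hGi : ∀ j < d, η / 4 * (n : ℝ) ^ j ≤ (A e m i j : ℝ) := hup m (i + 1) i h (by omega)
      have hdi : η / 2 * (n : ℝ) ^ d ≤ (A e m i d : ℝ) := by
        have h1 := hanti m (i + 1) i h (by omega) d le_rfl
        exact hd2.trans (by exact_mod_cast h1)
      have hE := heu m hm i hi hGi hdi
      refine ⟨⟨hm, hi.le, hGi⟩, ?_⟩
      have hm1 : 1 ≤ m := by
        by_contra hcon
        have hm0 : m = 0 := by omega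
        subst hm0
        have h1 := A_le_pow he1 (hpos 0 i hGi) (show 1 ≤ d by omega)
        have h2 := hE 1 (by omega)
        have h3 : (A e 0 i 1 : ℝ) ≤ 0 := by
          have h4 : A e 0 i 1 ≤ 0 := by simpa using h1
          exact_mod_cast h4
        have h5 : 0 < η / 2 * (n : ℝ) ^ 1 := by positivity
        linarith
      obtain ⟨m', rfl⟩ : ∃ m', m = m' + 1 := ⟨m - 1, by omega⟩
      refine ⟨m', rfl, ⟨by omega, hi.le, ?_⟩, ?_, ?_, ?_, ?_, ?_, ?_, ?_, ?_⟩
      · intro j hj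
        rcases j with _ | j
        · rw [A_deg_zero he1]
          simp only [pow_zero, mul_one, Int.cast_one]
          linarith
        · have h1 := A_pascal he1 m' i j
          have h2 := hE (j + 1) (by omega)
          have h3 := hle (m' + 1) hmn i hGi j (by omega)
          have h4 : (A e (m' + 1) i (j + 1) : ℝ) = (A e m' i (j + 1) : ℝ) + (A e (m' + 1) i j : ℝ) := by
            exact_mod_cast h1
          have h5 : (n : ℝ) ^ (j + 1) = (n : ℝ) ^ j * n := pow_succ _ _
          have h6 : (0 : ℝ) < (n : ℝ) ^ j := by positivity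
          have h7 : 4 * (n : ℝ) ^ j ≤ η * n * (n : ℝ) ^ j := mul_le_mul_of_nonneg_right hnη h6.le
          rw [h5] at h2 ⊢
          nlinarith
      · rw [A_succ]
        push_cast
        ring
      · have h1 := A_pascal he1 m' i (d - 1)
        rw [show d - 1 + 1 = d by omega] at h1
        have h2 : (A e (m' + 1) i d : ℝ) = (A e m' i d : ℝ) + (A e (m' + 1) i (d - 1) : ℝ) := by
          exact_mod_cast h1
        linarith
      · split_ifs with h1
        · exact_mod_cast hpos _ _ hGi (d - e i) (by have := he i; omega)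
        · simp
      · rw [hw]
        beta_reduce
        split_ifs with h1
        · exact hle (m' + 1) hmn i hGi (d - e i) (by omega)
        · simp
      · have h1 := hE (d - 1) (by omega)
        have h2 : 0 < η / 2 * (n : ℝ) ^ (d - 1) := by positivity
        linarith
      · have h1 := hle (m' + 1) hmn i hGi (d - 1) (by omega)
        have h2 : (n : ℝ) ^ d = (n : ℝ) ^ (d - 1) * n := by
          rw [← pow_succ, show d - 1 + 1 = d by omega]
        calc (A e (m' + 1) i (d - 1) : ℝ) * n ≤ (n : ℝ) ^ (d - 1) * n :=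
              mul_le_mul_of_nonneg_right h1 hn0.le
          _ = (n : ℝ) ^ d := h2.symm
          _ ≤ (1 + 1 / η) * (n : ℝ) ^ d := by
            have h3 : (0 : ℝ) ≤ 1 / η * (n : ℝ) ^ d := by positivity
            linarith
      · have h1 := hE (d - 1) (by omega)
        have h2 : (n : ℝ) ^ (d - 1) = (n : ℝ) ^ (d - 2) * n := by
          rw [← pow_succ, show d - 2 + 1 = d - 1 by omega]
        have h6 : (0 : ℝ) < (n : ℝ) ^ (d - 2) := by positivity
        have h7 : 4 * (n : ℝ) ^ (d - 2) ≤ η * n * (n : ℝ) ^ (d - 2) :=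
          mul_le_mul_of_nonneg_right hnη h6.le
        have h8 : ((if e i ≤ d then A e (m' + 1) i (d - e i) else 0 : ℤ) : ℝ) ≤
            (n : ℝ) ^ (d - 2) := by
          split_ifs with h3
          · refine (hle (m' + 1) hmn i hGi (d - e i) (by omega)).trans ?_
            refine pow_le_pow_right₀ ?_ ?_
            · have : 1 ≤ n := by omega
              exact_mod_cast this
            · have := he i
              omega
          · simp only [Int.cast_zero]
            exact h6.le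
        rw [h2] at h1
        nlinarith
      · refine ⟨δ (m' + 1) (i + 1) - δ (m' + 1) i, δ m' i - δ (m' + 1) i, by ring, by ring, ?_⟩
        split_ifs with h1
        · have h2 := (hst (m' + 1) hm i hi hE h1).2
          rw [Nat.add_sub_cancel] at h2
          linarith
        · rw [hbig (m' + 1) hm i hi (by omega)]
          simp)
    m₁ ⟨le_rfl, le_rfl, hreg⟩ (hA d le_rfl)
  exact key

end Pool.Agent.XD
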